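import Pool.Agent.Run7.h182.QS.Iface2
import Pool.Agent.Run7.h897.TW.Str

/-!
# The smallness of the fluxes at polynomially large `β`: interface
-/

open MeasureTheory
open Pool.Agent.Run7.h897.TW (Sm)
open Pool.Agent.Run7.h897.ST (S4 S6 mu6)
open Pool.Agent.Run7.h871.TC (wE)

namespace Pool.Agent.Run7.h897.QS

/-- SM: the sectors with flux are small at polynomially large `β`, at the sizes from `l` to
`C l²`. Every configuration with flux has a bad cell, hence an action of at least `δ₀`, `δ₀⁻¹`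
polynomial in `l` (KY); the lower bound of the partition function is `Run7.h4.YM.ZZ_lower`. -/
def S_SM : Prop := ∀ (N k : ℕ) [NeZero N], 2 ≤ N → Nat.Coprime k N →
  ∀ [MeasurableSpace (S4 N)] [BorelSpace (S4 N)] [MeasurableSpace (S6 N)] [BorelSpace (S6 N)]
  (μ : Measure (S4 N)) [IsProbabilityMeasure μ] [μ.IsHaarMeasure] (C r : ℕ),
  ∃ p l₀ : ℕ, ∀ (l : ℕ) [NeZero l], l₀ ≤ l → ∀ β : ℝ, (l : ℝ) ^ p ≤ β →
    Sm (mu6 μ) (wE N l k β) l (C * l ^ 2) (((l : ℝ) ^ r)⁻¹)

end Pool.Agent.Run7.h897.QS
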