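import Pool.Agent.Run7.h897.QS.SM
import Pool.Agent.Run7.h897.QC.Q15
import Pool.Agent.Run7.h897.ST.Cri

/-!
# SOFT: the law of the electric fluxes at polynomially large `β`
-/

set_option linter.unusedSectionVars false
set_option linter.unusedVariables false
set_option linter.style.haveILetI false

open MeasureTheory Matrix Filter Topology
open scoped Matrix.Norms.Frobenius
open Pool.Agent.H906R3.YM Pool.Agent.W793.YM Pool.Agent.TH618.YM Pool.Agent.N984.TW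
open Pool.Agent.Run7.h630.R2 (SU_closed zeta Zt TwPair La V zt_ratio)
open Pool.Agent.Run7.h897.TW
open Pool.Agent.Run7.h897.ST (S4 S6 mu6 mu6_haar mu6_prob right_inv'' inv_inv'')
open Pool.Agent.Run7.h897.FS (dP)
open Pool.Agent.Run7.h871.TC (wE wE_bd wE_sy ZE_eq_Zt)
open Run7.h630.QC (S_Q13 S_Q14 Zs vol)
open Pool.Agent.Run7.h897.QC

namespace Pool.Agent.Run7.h897.QS

noncomputable section

/-- **The criterion at all the scales of an interval, at polynomially large `β`** -/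
theorem crS_poly (h13 : S_Q13) (h14 : S_Q14) (N k : ℕ) [NeZero N] (hN : 2 ≤ N)
    (hk : Nat.Coprime k N) [MeasurableSpace (S4 N)] [BorelSpace (S4 N)] [MeasurableSpace (S6 N)]
    [BorelSpace (S6 N)] (μ : Measure (S4 N)) [IsProbabilityMeasure μ] [μ.IsHaarMeasure] {m : ℝ}
    (hm : 0 < m) (hmN : m < 2 * Real.pi / N) :
    ∃ K0 : ℕ, ∀ K : ℕ, K0 ≤ K → ∃ p l₀ : ℕ, ∀ (l : ℕ) [NeZero l], l₀ ≤ l → ∀ β : ℝ,
      (l : ℝ) ^ p ≤ β → ∀ a : ℕ, l * (K * (Nat.log 2 l + 1)) ≤ a →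
        a ≤ 2 * (l * (K * (Nat.log 2 l + 1))) →
        CrS (mu6 μ) (wE N l k β) a (Real.exp (-(m / l * (2 * a)))) := by
  haveI := mu6_prob μ
  haveI := mu6_haar μ
  haveI := right_inv'' (mu6 μ)
  haveI := inv_inv'' (mu6 μ)
  obtain ⟨P, Q, hPQ⟩ := Pool.Agent.Run7.h871.TP.exists_twPair N hk
  obtain ⟨n, ⟨B⟩⟩ := exists_frame (SU_closed N)
  obtain ⟨C, p, hC, h14⟩ := h14 N k hk μ
  obtain ⟨m1, hm1, hm1'⟩ := exists_between hmN
  obtain ⟨δ, hδ⟩ : ∃ δ, δ = 2 * (m1 - m) := ⟨_, rfl⟩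
  have hδ0 : 0 < δ := by rw [hδ]; linarith
  obtain ⟨l1, hl1⟩ := eventually_atTop.1 ((rate_lim N hN).eventually (lt_mem_nhds hm1'))
  obtain ⟨K0, hK0'⟩ : ∃ K : ℕ, max 1 (8 / δ) ≤ K := exists_nat_ge _
  refine ⟨K0, fun K hKK => ?_⟩
  have hK : max 1 (8 / δ) ≤ K := hK0'.trans (by exact_mod_cast hKK)
  have hKδ : 8 ≤ δ * K := by
    have := (le_max_right _ _).trans hK
    rwa [div_le_iff₀ hδ0, mul_comm] at this
  have hK1r : (1 : ℝ) ≤ K := (le_max_left _ _).trans hK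
  have hK0 : (0 : ℝ) < K := by linarith
  have hK1 : 1 ≤ K := by exact_mod_cast hK1r
  obtain ⟨q, hq⟩ : ∃ q : ℕ, Real.exp (2 * m * (2 * K)) ≤ 2 ^ q := by
    obtain ⟨q, hq⟩ := pow_unbounded_of_one_lt (Real.exp (2 * m * (2 * K)))
      (show (1 : ℝ) < 2 by norm_num)
    exact ⟨q, hq.le⟩
  obtain ⟨D, hD⟩ : ∃ D, D = 30 * C * (64 * (K : ℝ) ^ 2) ^ p * Real.exp (2 * m * (2 * K)) :=
    ⟨_, rfl⟩
  obtain ⟨l2, hl2⟩ : ∃ l2 : ℕ, max D (1920 * n / δ) ≤ l2 := exists_nat_ge _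
  refine ⟨4 * (6 * p + q + 1), max 1 (max l1 l2), fun l _ hl β hβ a haA haA' => ?_⟩
  have hl01 : 1 ≤ l := (le_max_left _ _).trans hl
  have hl11 : l1 ≤ l := ((le_max_left _ _).trans (le_max_right _ _)).trans hl
  have hl21 : l2 ≤ l := ((le_max_right _ _).trans (le_max_right _ _)).trans hl
  have hlr : (1 : ℝ) ≤ l := by exact_mod_cast hl01
  have hl0 : (0 : ℝ) < l := by linarith
  have hlD : D ≤ l := (le_max_left _ _).trans (hl2.trans (by exact_mod_cast hl21))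
  have hln : 1920 * n / δ ≤ l := (le_max_right _ _).trans (hl2.trans (by exact_mod_cast hl21))
  have hrate : m1 / l ≤ rate l N := by
    rw [div_le_iff₀ (by linarith), mul_comm]
    exact (hl1 l hl11).le
  obtain ⟨f1, f2, f3⟩ := log_facts hl01
  obtain ⟨T, hT⟩ : ∃ T, T = Nat.log 2 l + 1 := ⟨_, rfl⟩
  rw [← hT] at haA haA'
  have hTl : T ≤ l := by rw [hT]; exact f3
  have hT1 : 1 ≤ T := by omega
  have hT1' : (1 : ℝ) ≤ T := by exact_mod_cast hT1
  have hTlog : Real.log l ≤ T := by rw [hT]; push_cast; exact f2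
  have ha1 : 1 ≤ a := (Nat.mul_pos hl01 (Nat.mul_pos hK1 hT1)).trans_le haA
  have ha1' : (1 : ℝ) ≤ a := by exact_mod_cast ha1
  obtain ⟨t, ht⟩ : ∃ t : ℝ, t = a / l := ⟨_, rfl⟩
  have har : (a : ℝ) = l * t := by rw [ht]; field_simp
  have haAr : (l : ℝ) * (K * T) ≤ a := by exact_mod_cast haA
  have haAr' : (a : ℝ) ≤ 2 * (l * (K * T)) := by exact_mod_cast haA'
  have ht1 : K * T ≤ t := by
    rw [ht, le_div_iff₀ hl0]; linarith
  have ht2 : t ≤ 2 * K * T := by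
    rw [ht, div_le_iff₀ hl0]; linarith
  have ht0 : 0 < t := by
    have : (0 : ℝ) < K * T := by positivity
    linarith
  obtain ⟨K', hK'⟩ : ∃ K' : ℝ, K' = t / T := ⟨_, rfl⟩
  have htr : t = K' * T := by rw [hK']; field_simp
  have hK'1 : (K : ℝ) ≤ K' := by
    rw [hK', le_div_iff₀ (by linarith)]; exact ht1
  have hK'2 : K' ≤ 2 * K := by
    rw [hK', div_le_iff₀ (by linarith)]; exact ht2
  have hK'0 : 0 ≤ K' := by linarith
  haveI : NeZero a := ⟨by omega⟩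
  haveI : NeZero (2 * a) := ⟨by omega⟩
  haveI : NeZero (2 * (2 * a)) := ⟨by omega⟩
  have hsm : m / l * (2 * a) = 2 * m * t := by
    rw [har]
    field_simp
  -- the criterion
  refine crS_of (mu6 μ) l ha1 fun c hc inst => ?_
  haveI : NeZero c := ⟨by omega⟩
  rw [hsm]
  have hc8 : (c : ℝ) ≤ 4 * a := by
    rcases hc with rfl | rfl
    · push_cast; linarith
    · push_cast; linarith
  obtain ⟨d1, d2, d3⟩ := det_sharp B hN l hPQ (2 * a) (2 * (2 * a)) (2 * c) rfl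
  have hlim := zt_ratio B (mu6 μ) l hPQ (2 * a) (2 * (2 * a)) (2 * c) rfl d1 d2
  obtain ⟨r, hr⟩ : ∃ r, r = LinearMap.det (La B P Q : V (2 * a) (2 * c) l n →ₗ[ℝ] _) ^ 2 /
    LinearMap.det (La B P Q : V (2 * (2 * a)) (2 * c) l n →ₗ[ℝ] _) := ⟨_, rfl⟩
  rw [← hr] at d3 hlim
  have hr0 : 0 < r := by rw [hr]; positivity
  have hlim' : Tendsto (fun β => Zs μ (2 * (2 * a)) (2 * c) l k β /
      Zs μ (2 * a) (2 * c) l k β ^ 2) atTop (𝓝 r) := by
    refine hlim.congr fun β => ?_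
    rw [h13, h13]
  have hβ1 : 1 ≤ β := (one_le_pow₀ hlr).trans hβ
  have hlog := h14 a c l r hr0 hlim' β hβ1
  rw [h13, h13] at hlog
  -- the Gaussian part
  have hy : 4 * (((2 * c : ℕ) : ℝ) * l ^ 2 * n) * Real.exp (-rate l N) ^ (2 * a) ≤
      1 / 30 * Real.exp (-(2 * m * t)) := by
    have g1 : Real.exp (-rate l N) ^ (2 * a) ≤ Real.exp (-(2 * m1 * t)) := by
      rw [← Real.exp_nat_mul, Real.exp_le_exp]
      have : 2 * m1 * t ≤ ((2 * a : ℕ) : ℝ) * rate l N := by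
        have h5 := mul_le_mul_of_nonneg_left hrate (show (0 : ℝ) ≤ 2 * a by positivity)
        have h6 : 2 * (a : ℝ) * (m1 / l) = 2 * m1 * t := by
          rw [har]; field_simp
        push_cast
        linarith
      linarith
    have g2 : 4 * (((2 * c : ℕ) : ℝ) * l ^ 2 * n) ≤ 32 * (l ^ 3 * t * n) := by
      push_cast
      exact num2 (by linarith) (by positivity) (by rw [← har]; exact hc8)
    have g3 : 960 * ((l : ℝ) ^ 3 * t * n) ≤ Real.exp (δ * t) :=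
      num1 hlr htr hTlog (by linarith) (hKδ.trans (mul_le_mul_of_nonneg_left hK'1 hδ0.le))
        (by rwa [div_le_iff₀ hδ0] at hln) (by positivity) hδ0 ht0.le
    have g4 : Real.exp (-(2 * m1 * t)) = Real.exp (-(2 * m * t)) * Real.exp (-(δ * t)) := by
      rw [← Real.exp_add]; congr 1; rw [hδ]; ring
    calc 4 * (((2 * c : ℕ) : ℝ) * l ^ 2 * n) * Real.exp (-rate l N) ^ (2 * a)
        ≤ 32 * (l ^ 3 * t * n) * Real.exp (-(2 * m1 * t)) :=
          mul_le_mul g2 g1 (by positivity) (by positivity)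
      _ = 1 / 30 * Real.exp (-(2 * m * t)) *
          ((960 * ((l : ℝ) ^ 3 * t * n)) * Real.exp (-(δ * t))) := by rw [g4]; ring
      _ ≤ 1 / 30 * Real.exp (-(2 * m * t)) * 1 := by
          refine mul_le_mul_of_nonneg_left ?_ (by positivity)
          rw [Real.exp_neg, ← div_eq_mul_inv, div_le_one (Real.exp_pos _)]
          exact g3
      _ = _ := mul_one _
  -- the perturbation
  have hη : C * vol (2 * a) (2 * c) l ^ p * β ^ (-(1 / 4) : ℝ) ≤
      1 / 30 * Real.exp (-(2 * m * t)) := by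
    have v0 : 0 ≤ vol (2 * a) (2 * c) l := by unfold vol; positivity
    have v1 : vol (2 * a) (2 * c) l ≤ 64 * (K : ℝ) ^ 2 * l ^ 6 := by
      unfold vol
      push_cast
      refine (num3 har htr (by linarith) hK'0 (by exact_mod_cast hTl) (by linarith) hc8).trans ?_
      have : K' ^ 2 ≤ (2 * K : ℝ) ^ 2 := pow_le_pow_left₀ hK'0 hK'2 2
      have h6 : (0 : ℝ) ≤ l ^ 6 := by positivity
      nlinarith
    have v4 := num4 (m := m) (K := 2 * K) (l := l) hq f1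
    have e5 : 2 * m * t ≤ 2 * m * (2 * K * ((Nat.log 2 l : ℕ) + 1)) := by
      have : (T : ℝ) = ((Nat.log 2 l : ℕ) : ℝ) + 1 := by rw [hT]; push_cast; rfl
      rw [← this]
      have h7 : 0 ≤ 2 * m := by linarith
      exact mul_le_mul_of_nonneg_left ht2 h7
    rw [Real.exp_neg]
    exact num6 (p := p) (q := q) hC v0 hlr (by positivity) v1
      (Real.rpow_nonneg (by linarith) _) (num5 hl01 hβ) (Real.exp_pos _)
      ((Real.exp_le_exp.2 e5).trans v4) (Real.exp_pos _) (by rw [← hD]; exact hlD)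
  have hR : 0 < Zt (mu6 μ) l k β (2 * (2 * a)) (2 * c) / Zt (mu6 μ) l k β (2 * a) (2 * c) ^ 2 := by
    have z1 : 0 < Zt (mu6 μ) l k β (2 * (2 * a)) (2 * c) :=
      Pool.Agent.Run7.h630.R2.Zt_pos (SU_closed N) (mu6 μ) β
    have z2 : 0 < Zt (mu6 μ) l k β (2 * a) (2 * c) :=
      Pool.Agent.Run7.h630.R2.Zt_pos (SU_closed N) (mu6 μ) β
    positivity
  have hfin := ratio_ge hR hr0 (by positivity) (by
    have := Real.rpow_nonneg (show (0 : ℝ) ≤ β by linarith) (-(1 / 4) : ℝ)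
    have v0 : 0 ≤ vol (2 * a) (2 * c) l := by unfold vol; positivity
    positivity) d3 hlog
  refine hfin.trans ?_
  have := add_le_add hy hη
  linarith

/-- **The free energies of the sectors from the criterion at the scales of an interval** -/
theorem soft_of {N l : ℕ} [NeZero N] [NeZero l] {G : Type*} [Group G] [MeasurableSpace G]
    [MeasurableMul₂ G] [MeasurableInv G] {μ : Measure G} [IsProbabilityMeasure μ]
    [μ.IsMulLeftInvariant] [μ.IsMulRightInvariant] [μ.IsInvInvariant] {w : Ens N l G}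
    (hb : w.Bd) (hsy : w.Sy) {z : ZMod N → G} (hcn : Cn w z) {m m1 : ℝ} (hm : 0 < m)
    (hm1 : m < m1) {A : ℕ} (hA2 : Real.exp (-(m1 * (2 * A))) ≤ 1 / 2) (hA3 : m / (m1 - m) ≤ A)
    (hA4 : 2 ≤ A) (hA : ∀ a, A ≤ a → a ≤ 2 * A → ∀ χ : AddChar (ZMod N) ℂ,
      CrX μ w χ a (Real.exp (-(m1 * (2 * a)))) ∧ 0 < ZX μ w χ fun _ => a)
    (χ : AddChar (ZMod N) ℂ) (p q : ℕ) [NeZero (2 * p)] [NeZero (2 * q)] (hp : 2 * A ≤ p)
    (hq : 2 * A ≤ q) :
      0 < ZS μ w χ (2 * p) (2 * q) ∧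
      |Real.log (ZS μ w χ (2 * p) (2 * q) / ZS μ w 1 (2 * p) (2 * q)) +
        sig μ w χ * (4 * (p * q))| ≤ (p + q) * Real.exp (-(2 * m * (min p q : ℕ))) := by
  obtain ⟨n, hn⟩ : ∃ n, n = min p q := ⟨_, rfl⟩
  have hnA : 2 * A ≤ n := by rw [hn]; exact le_min hp hq
  obtain ⟨k', e1, e2, -⟩ := xS_scale (s := 1 / 2) (by norm_num) le_rfl (a := A) (by omega)
    (n := n) hnA
  have hpw : 0 < 2 ^ (k' + 1) := by positivity
  obtain ⟨a, ha⟩ : ∃ a, a = n / 2 ^ (k' + 1) := ⟨_, rfl⟩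
  have a1 : A ≤ a := by
    rw [ha, Nat.le_div_iff_mul_le hpw, mul_comm]
    exact e1
  have a2 : a ≤ 2 * A := by
    have : a < 2 * A := by
      rw [ha, Nat.div_lt_iff_lt_mul hpw]
      calc n < 2 ^ (k' + 2) * A := e2
        _ = _ := by ring
    omega
  have a3 : 2 ^ (k' + 1) * a ≤ n := by
    rw [ha]; exact Nat.mul_div_le n _
  have a4 : n < 2 ^ (k' + 1) * (a + 1) := by
    rw [ha, mul_comm]
    exact Nat.lt_mul_of_div_lt (Nat.lt_succ_self _) hpw
  have hcr := hA a a1 a2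
  have ha' : (A : ℝ) ≤ a := by exact_mod_cast a1
  have hs : Real.exp (-(m1 * (2 * a))) ≤ 1 / 2 := by
    refine le_trans (Real.exp_le_exp.2 ?_) hA2
    have : 0 < m1 := hm.trans hm1
    nlinarith
  have h1p : 2 ^ (k' + 1) * a ≤ p := a3.trans (hn ▸ min_le_left _ _)
  have h1q : 2 ^ (k' + 1) * a ≤ q := a3.trans (hn ▸ min_le_right _ _)
  obtain ⟨c1, c2, c3⟩ := sector hb hsy hcn χ (by omega) (hcr χ).2 (Real.exp_pos _) hs (hcr χ).1
    h1p h1q
  obtain ⟨b1, b2, b3⟩ := sector hb hsy hcn 1 (by omega) (hcr 1).2 (Real.exp_pos _) hs (hcr 1).1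
    h1p h1q
  have e1 : ∀ χ : AddChar (ZMod N) ℂ, ZX μ w χ ![p, q] = ZS μ w χ (2 * p) (2 * q) := fun χ =>
    ZX_eq rfl rfl
  rw [e1] at c1 c2 c3 b1 b2 b3
  refine ⟨c1, ?_⟩
  rw [Real.log_div c1.ne' b1.ne']
  set E := xS (Real.exp (-(m1 * (2 * a)))) k' * (1 + (p + q) / (2 ^ (k' + 1) * a : ℕ)) with hE
  have h4 : |Real.log (ZS μ w χ (2 * p) (2 * q)) - Real.log (ZS μ w 1 (2 * p) (2 * q)) +
      sig μ w χ * (4 * (p * q))| ≤ E := by
    unfold sig
    rw [abs_le]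
    constructor <;> nlinarith
  refine h4.trans ?_
  have ht : (4 : ℝ) ≤ (2 ^ (k' + 1) * a : ℕ) := by
    have h5 : 2 ≤ 2 ^ (k' + 1) := by
      rw [pow_succ]
      have := Nat.one_le_two_pow (n := k')
      omega
    have : 4 ≤ 2 ^ (k' + 1) * a := by
      calc 4 = 2 * 2 := by norm_num
        _ ≤ _ := Nat.mul_le_mul h5 (by omega)
    exact_mod_cast this
  have hp1 : (1 : ℝ) ≤ p := by
    have : 1 ≤ p := by omega
    exact_mod_cast this
  have hq1 : (0 : ℝ) ≤ q := by positivity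
  have h6 : 1 + ((p : ℝ) + q) / (2 ^ (k' + 1) * a : ℕ) ≤ 15 * (p + q) := by
    have h7 : ((p : ℝ) + q) / (2 ^ (k' + 1) * a : ℕ) ≤ p + q :=
      div_le_self (by positivity) (by linarith)
    linarith
  have hx : xS (Real.exp (-(m1 * (2 * a)))) k' ≤ 1 / 15 * Real.exp (-(2 * m * n)) := by
    unfold xS
    refine mul_le_mul_of_nonneg_left ?_ (by norm_num)
    rw [← Real.exp_nat_mul, Real.exp_le_exp]
    push_cast
    have g1 : (n : ℝ) ≤ 2 ^ (k' + 1) * (a + 1) := by exact_mod_cast a4.le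
    have g2 : m * (a + 1) ≤ m1 * a := by
      have g3 : m / (m1 - m) ≤ a := hA3.trans ha'
      rw [div_le_iff₀ (by linarith)] at g3
      linarith
    have g4 : m * n ≤ 2 ^ (k' + 1) * (m1 * a) := by
      calc m * n ≤ m * (2 ^ (k' + 1) * (a + 1)) := by gcongr
        _ = 2 ^ (k' + 1) * (m * (a + 1)) := by ring
        _ ≤ _ := by gcongr
    nlinarith
  calc E ≤ (1 / 15 * Real.exp (-(2 * m * n))) * (15 * (p + q)) := by
        rw [hE]
        exact mul_le_mul hx h6 (by positivity) (by positivity)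
    _ = _ := by rw [hn]; ring

lemma exp_one_half : Real.exp (-1) ≤ 1 / 2 := by
  rw [Real.exp_neg, inv_le_comm₀ (Real.exp_pos _) (by norm_num)]
  have := Real.add_one_le_exp (1 : ℝ)
  linarith

/-- **The law of the electric fluxes at polynomially large `β`** -/
theorem soft_poly (h13 : S_Q13) (h14 : S_Q14) (hS : S_SM) (N k : ℕ) [NeZero N] (hN : 2 ≤ N)
    (hk : Nat.Coprime k N) [MeasurableSpace (S4 N)] [BorelSpace (S4 N)] [MeasurableSpace (S6 N)]
    [BorelSpace (S6 N)] (μ : Measure (S4 N)) [IsProbabilityMeasure μ] [μ.IsHaarMeasure] {m : ℝ}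
    (hm : 0 < m) (hmN : m < 2 * Real.pi / N) :
    ∃ p l₀ : ℕ, ∀ (l : ℕ) [NeZero l], l₀ ≤ l → ∀ β : ℝ, (l : ℝ) ^ p ≤ β →
      Run7.h182.QS.SoftAt (mu6 μ) (wE N l k β) (m / l) (l ^ p) := by
  haveI := mu6_prob μ
  haveI := mu6_haar μ
  haveI := right_inv'' (mu6 μ)
  haveI := inv_inv'' (mu6 μ)
  obtain ⟨m2, hm2, hm2N⟩ := exists_between hmN
  obtain ⟨m1, hm1, hm12⟩ := exists_between hm2
  have hm10 : 0 < m1 := hm.trans hm1
  have hm20 : 0 < m2 := hm10.trans hm12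
  obtain ⟨K0, hK0⟩ := crS_poly h13 h14 N k hN hk μ hm20 hm2N
  obtain ⟨K1, hK1⟩ : ∃ K : ℕ, max (max 1 (1 / m1)) (max (1 / (m2 - m1)) (m / (m1 - m))) ≤ K :=
    exists_nat_ge _
  obtain ⟨K, hK⟩ : ∃ K, K = max K0 K1 := ⟨_, rfl⟩
  have hKr : max (max 1 (1 / m1)) (max (1 / (m2 - m1)) (m / (m1 - m))) ≤ K :=
    hK1.trans (by rw [hK]; exact_mod_cast le_max_right _ _)
  have hKa : (1 : ℝ) ≤ K := (le_max_left _ _).trans ((le_max_left _ _).trans hKr)
  have hKb : 1 ≤ m1 * K := by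
    have := (le_max_right _ _).trans ((le_max_left _ _).trans hKr)
    rwa [div_le_iff₀ hm10, mul_comm] at this
  have hKc : 1 ≤ (m2 - m1) * K := by
    have := (le_max_left _ _).trans ((le_max_right _ _).trans hKr)
    rwa [div_le_iff₀ (by linarith), mul_comm] at this
  have hKd : m / (m1 - m) ≤ K := (le_max_right _ _).trans ((le_max_right _ _).trans hKr)
  have hKn : 1 ≤ K := by exact_mod_cast hKa
  obtain ⟨p1, l1, h1⟩ := hK0 K (by rw [hK]; exact le_max_left _ _)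
  obtain ⟨q, hq⟩ : ∃ q : ℕ, Real.exp (2 * m1 * (2 * K)) ≤ 2 ^ q := by
    obtain ⟨q, hq⟩ := pow_unbounded_of_one_lt (Real.exp (2 * m1 * (2 * K)))
      (show (1 : ℝ) < 2 by norm_num)
    exact ⟨q, hq.le⟩
  obtain ⟨p2, l2, h2⟩ := hS N k hN hk μ (8 * K) (q + 1)
  obtain ⟨l3, hl3⟩ : ∃ l3 : ℕ, max (60 * N * Real.exp (2 * m1 * (2 * K))) (4 * N) ≤ l3 :=
    exists_nat_ge _
  refine ⟨max 3 (max p1 p2), max (max 2 (2 * K)) (max l3 (max l1 l2)), fun l _ hl β hβ => ?_⟩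
  have hl2 : 2 ≤ l := ((le_max_left _ _).trans (le_max_left _ _)).trans hl
  have hlK : 2 * K ≤ l := ((le_max_right _ _).trans (le_max_left _ _)).trans hl
  have hll3 : l3 ≤ l := ((le_max_left _ _).trans (le_max_right _ _)).trans hl
  have hll1 : l1 ≤ l :=
    ((le_max_left _ _).trans ((le_max_right _ _).trans (le_max_right _ _))).trans hl
  have hll2 : l2 ≤ l :=
    ((le_max_right _ _).trans ((le_max_right _ _).trans (le_max_right _ _))).trans hl
  have hl01 : 1 ≤ l := by omega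
  have hlr : (1 : ℝ) ≤ l := by exact_mod_cast hl01
  have hl0 : (0 : ℝ) < l := by linarith
  have hN0 : (0 : ℝ) < N := by exact_mod_cast NeZero.pos N
  have hl3' : max (60 * N * Real.exp (2 * m1 * (2 * K))) (4 * N) ≤ (l : ℝ) :=
    hl3.trans (by exact_mod_cast hll3)
  have hlA := (le_max_left _ _).trans hl3'
  have hlB := (le_max_right _ _).trans hl3'
  have hβ1 : (l : ℝ) ^ p1 ≤ β :=
    (pow_le_pow_right₀ hlr ((le_max_left _ _).trans (le_max_right _ _))).trans hβ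
  have hβ2 : (l : ℝ) ^ p2 ≤ β :=
    (pow_le_pow_right₀ hlr ((le_max_right _ _).trans (le_max_right _ _))).trans hβ
  obtain ⟨f1, f2, f3⟩ := log_facts hl01
  obtain ⟨T, hT⟩ : ∃ T, T = Nat.log 2 l + 1 := ⟨_, rfl⟩
  have hTl : T ≤ l := by rw [hT]; exact f3
  have hT1 : 1 ≤ T := by omega
  have hT1' : (1 : ℝ) ≤ T := by exact_mod_cast hT1
  obtain ⟨A, hA⟩ : ∃ A, A = l * (K * T) := ⟨_, rfl⟩
  have hAr : (A : ℝ) = l * (K * T) := by rw [hA]; push_cast; rfl
  have hKT : (K : ℝ) ≤ K * T := by nlinarith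
  have hKTn : K ≤ K * T := Nat.le_mul_of_pos_right K (by omega)
  have hlAn : l ≤ A := by
    rw [hA]
    exact Nat.le_mul_of_pos_right l (by nlinarith)
  have hKA : K ≤ A := by
    rw [hA]
    calc K ≤ K * T := hKTn
      _ ≤ l * (K * T) := Nat.le_mul_of_pos_left _ (by omega)
  have hlr' : ∀ x y : ℝ, x / l * (2 * (l * y)) = 2 * x * y := fun x y => by field_simp
  have hA2 : Real.exp (-(m1 / l * (2 * A))) ≤ 1 / 2 := by
    rw [hAr, hlr']
    refine le_trans (Real.exp_le_exp.2 ?_) exp_one_half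
    have : m1 * K ≤ m1 * (K * T) := mul_le_mul_of_nonneg_left hKT hm10.le
    linarith
  have hml : 0 < m / l := by positivity
  have hm1l : m / l < m1 / l := div_lt_div_of_pos_right hm1 hl0
  have hA3 : m / l / (m1 / l - m / l) ≤ A := by
    have e1 : m / l / (m1 / l - m / l) = m / (m1 - m) := by
      have h5 : m1 - m ≠ 0 := by linarith
      rw [← sub_div, div_div_div_cancel_right₀ hl0.ne']
    rw [e1]
    exact hKd.trans (by exact_mod_cast hKA)
  have hmain := soft_of (wE_bd (N := N) (l := l) (k := k) β) (wE_sy (N := N) (l := l) (k := k) β)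
    (Pool.Agent.Run7.h871.UP.zc_cn (N := N) (l := l) (k := k) β) (μ := mu6 μ) hml hm1l hA2 hA3
    (hl2.trans hlAn) (fun a ha1 ha2 χ => ?_)
  · intro χ p q _ _ hp hq
    have h3 : 2 * A ≤ l ^ max 3 (max p1 p2) := by
      calc 2 * A = 2 * K * T * l := by rw [hA]; ring
        _ ≤ l * l * l := by gcongr
        _ = l ^ 3 := by ring
        _ ≤ _ := Nat.pow_le_pow_right hl01 (le_max_left _ _)
    exact hmain χ p q (h3.trans hp) (h3.trans hq)
  · -- the criterion in the sector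
    have ha1r : (A : ℝ) ≤ a := by exact_mod_cast ha1
    have ha2r : (a : ℝ) ≤ 2 * A := by exact_mod_cast ha2
    have hcr := h1 l hll1 β hβ1 a (by rw [← hT, ← hA]; exact ha1) (by rw [← hT, ← hA]; exact ha2)
    obtain ⟨t, ht⟩ : ∃ t : ℝ, t = a / l := ⟨_, rfl⟩
    have har : (a : ℝ) = l * t := by rw [ht]; field_simp
    have ht1 : K * T ≤ t := by
      rw [ht, le_div_iff₀ hl0]; linarith
    have ht2 : t ≤ 2 * K * T := by
      rw [ht, div_le_iff₀ hl0]; linarith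
    have hs1 : Real.exp (-(m2 / l * (2 * a))) ≤ 1 / 2 * Real.exp (-(m1 / l * (2 * a))) := by
      rw [har, hlr', hlr']
      have e1 : Real.exp (-(2 * m2 * t)) = Real.exp (-(2 * (m2 - m1) * t)) *
          Real.exp (-(2 * m1 * t)) := by
        rw [← Real.exp_add]; congr 1; ring
      rw [e1]
      refine mul_le_mul_of_nonneg_right ?_ (Real.exp_pos _).le
      refine le_trans (Real.exp_le_exp.2 ?_) exp_one_half
      have h5 : (m2 - m1) * K ≤ (m2 - m1) * t :=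
        mul_le_mul_of_nonneg_left (hKT.trans ht1) (by linarith)
      linarith
    have hlow : 60 * N * ((l : ℝ) ^ (q + 1))⁻¹ ≤ Real.exp (-(m1 / l * (2 * a))) := by
      rw [har, hlr']
      have v4 := num4 (m := m1) (K := 2 * K) (l := l) hq f1
      have e5 : 2 * m1 * t ≤ 2 * m1 * (2 * K * ((Nat.log 2 l : ℕ) + 1)) := by
        have : (T : ℝ) = ((Nat.log 2 l : ℕ) : ℝ) + 1 := by rw [hT]; push_cast; rfl
        rw [← this]
        exact mul_le_mul_of_nonneg_left ht2 (by linarith)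
      have e6 := (Real.exp_le_exp.2 e5).trans v4
      have hE := Real.exp_pos (2 * m1 * t)
      rw [Real.exp_neg, ← div_eq_mul_inv, div_le_iff₀ (by positivity), inv_mul_eq_div,
        le_div_iff₀ hE]
      calc 60 * N * Real.exp (2 * m1 * t) ≤
          60 * N * (Real.exp (2 * m1 * (2 * K)) * (l : ℝ) ^ q) := by gcongr
        _ = (60 * N * Real.exp (2 * m1 * (2 * K))) * (l : ℝ) ^ q := by ring
        _ ≤ l * (l : ℝ) ^ q := by gcongr
        _ = _ := by ring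
    have hpos := Real.exp_pos (-(m1 / l * (2 * a)))
    have hη0 : (0 : ℝ) ≤ ((l : ℝ) ^ (q + 1))⁻¹ := by positivity
    refine crX (wE_bd β) (wE_sy β) (Pool.Agent.Run7.h871.UP.zc_cn β)
      (fun a b _ _ s hs => Pool.Agent.Run7.h630.R2.dc_range s hs) (by omega)
      (s1 := Real.exp (-(m2 / l * (2 * a)))) (by linarith) hcr hη0 (by linarith) ?_ ?_ χ
    · have h6 : ((l : ℝ) ^ (q + 1))⁻¹ ≤ (l : ℝ)⁻¹ := by
        apply inv_anti₀ hl0
        calc (l : ℝ) = l ^ 1 := (pow_one _).symm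
          _ ≤ _ := pow_le_pow_right₀ hlr (by omega)
      calc 4 * N * ((l : ℝ) ^ (q + 1))⁻¹ ≤ 4 * N * (l : ℝ)⁻¹ := by gcongr
        _ ≤ 1 := by rw [← div_eq_mul_inv, div_le_one hl0]; exact hlB
    · intro p q' _ _ h5 h6 h7 h8
      have h9 : 4 * a ≤ 8 * K * l ^ 2 := by
        calc 4 * a ≤ 4 * (2 * A) := by omega
          _ = 8 * K * (l * T) := by rw [hA]; ring
          _ ≤ 8 * K * (l * l) := by gcongr
          _ = _ := by ring
      exact h2 l hll2 β hβ2 p q' (hlAn.trans (ha1.trans h5)) (hlAn.trans (ha1.trans h6))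
        (h7.trans h9) (h8.trans h9)

/-- **SOFT** -/
theorem t_SOFT (h13 : S_Q13) (h14 : S_Q14) (hS : S_SM) : Run7.h182.QS.S_SOFT := by
  intro N k _ hN hk _ _ _ _ μ _ _ S _ m hm hmN
  exact soft_poly h13 h14 hS N k hN hk μ hm hmN

end

end Pool.Agent.Run7.h897.QS
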